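import Pool.Agent.helper56.SG.SpecG

set_option autoImplicit false

open MeasureTheory Set Metric Filter Topology
open scoped ENNReal NNReal ComplexConjugate
open Pool.Agent.SG

noncomputable section

namespace Pool.Agent.SGG

theorem GEX (hCHI : CHI_stmt) (hDOE : DOE_stmt) (hFX1 : FX1_stmt) (hFX2 : FX2_stmt)
    (hMPR : MPR_stmt) (hHRM : HRM_stmt) (hPER : PER_stmt) (hGRO : GRO_stmt) (hACT : ACT_stmt) :
    GEX_stmt := by
  intro Γ _ A hd hc φ hφ hne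
  obtain ⟨χ, r, hP⟩ := hCHI Γ A hd hc
  obtain ⟨t, δ, ht0, ht1, hδ0, hδ1, hD⟩ := hDOE Γ A hc
  obtain ⟨W, hWc, hWe, hWf⟩ := hFX1 Γ A hd hc χ r hP φ hφ t δ ht0 ht1 hδ0 hδ1 hD
  have hall := hFX2 Γ A hd hc χ r hP φ hφ t δ ht0 ht1 hδ0 hδ1 hD W hWc hWe hWf
  obtain ⟨F, hF, hFW⟩ := hHRM W fun r hr0 hr1 => hMPR W hWc hall r hr0 hr1
  have hFe : Equi A φ (fun z => (F z).re) := by
    intro γ z hz
    have h := (hACT Γ A z hz).1 γ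
    simp only [hFW _ h.2.1, hFW z hz]
    exact hWe γ z hz
  obtain ⟨ψ, hψr, hψa, hFψ⟩ := hPER Γ A φ F hF hFe
  obtain ⟨C, hC, h1, h2⟩ := hGRO Γ A hc ψ F hF hFψ
  obtain ⟨γ, hγ⟩ := hne
  have h0 : (0 : ℂ) ∈ ball (0 : ℂ) 1 := by simp
  refine ⟨F, ψ, C, hC, hF, hψr, hψa, hFψ, h1, h2, A.act γ 0, ((hACT Γ A 0 h0).1 γ).2.1, 0, h0, ?_⟩
  intro h
  rw [hFψ γ 0 h0] at h
  have h3 : ψ γ = 0 := by
    have := congrArg (fun w => w - F 0) h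
    simpa using this
  apply hγ
  rw [← hψr γ, h3]
  simp

end Pool.Agent.SGG
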