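import Pool.Agent.helper56.SG.SpecG

set_option autoImplicit false

open MeasureTheory Set Metric Filter Topology
open scoped ENNReal NNReal ComplexConjugate
open Pool.Agent.SG

noncomputable section

namespace Pool.Agent.SGG

theorem KLI (hKNB : KNB_stmt) (hHYC : HYC_stmt) : KLI_stmt := by
  intro t ht0 ht1 x hx
  obtain ⟨hN, hK⟩ := hKNB t ht0 ht1
  obtain ⟨hKc, hKi, hKu⟩ := hK x hx
  have hae : ∀ᵐ y ∂hyp, y ∈ ball (0 : ℂ) 1 := by
    rw [ae_iff]
    exact hHYC.1
  have hNi : (NN t)⁻¹ * NN t = 1 := inv_mul_cancel₀ hN.ne'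
  have hNi0 : 0 ≤ (NN t)⁻¹ := (inv_pos.mpr hN).le
  have hconst : ∀ c : ℝ, KK t (fun _ => c) x = c := by
    intro c
    unfold KK
    rw [integral_mul_const, hKi, ← mul_assoc, hNi, one_mul]
  have hadd : ∀ u v : ℂ → ℝ, CB u → CB v → KK t (fun y => u y + v y) x = KK t u x + KK t v x := by
    intro u v hu hv
    unfold KK
    rw [← mul_add, ← integral_add (hKu u hu) (hKu v hv)]
    congr 1
    apply integral_congr_ae
    exact ae_of_all _ fun y => mul_add _ _ _
  have hsub : ∀ u v : ℂ → ℝ, CB u → CB v → KK t (fun y => u y - v y) x = KK t u x - KK t v x := by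
    intro u v hu hv
    unfold KK
    rw [← mul_sub, ← integral_sub (hKu u hu) (hKu v hv)]
    congr 1
    apply integral_congr_ae
    exact ae_of_all _ fun y => mul_sub _ _ _
  have hmono : ∀ u v : ℂ → ℝ, CB u → CB v → (∀ y ∈ ball (0 : ℂ) 1, u y ≤ v y) →
      KK t u x ≤ KK t v x := by
    intro u v hu hv h
    unfold KK
    apply mul_le_mul_of_nonneg_left _ hNi0
    apply integral_mono_ae (hKu u hu) (hKu v hv)
    filter_upwards [hae] with y hy
    exact mul_le_mul_of_nonneg_left (h y hy) (le_max_left _ _)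
  refine ⟨hconst, ?_, ?_⟩
  · intro u v hu hv
    refine ⟨hadd u v hu hv, hsub u v hu hv, hmono u v hu hv, ?_⟩
    intro h
    exact le_antisymm (hmono u v hu hv fun y hy => (h y hy).le)
      (hmono v u hv hu fun y hy => (h y hy).ge)
  · intro u v hu hv ε h
    have hc : CB (fun _ : ℂ => ε) := continuousOn_const
    have h1 : KK t u x ≤ KK t (fun y => v y + ε) x := by
      apply hmono u (fun y => v y + ε) hu (hv.add hc)
      intro y hy
      have := (abs_le.mp (h y hy)).2
      linarith
    have h2 : KK t v x ≤ KK t (fun y => u y + ε) x := by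
      apply hmono v (fun y => u y + ε) hv (hu.add hc)
      intro y hy
      have := (abs_le.mp (h y hy)).1
      linarith
    rw [hadd v (fun _ => ε) hv hc, hconst] at h1
    rw [hadd u (fun _ => ε) hu hc, hconst] at h2
    rw [abs_le]
    constructor <;> linarith

end Pool.Agent.SGG
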