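import Pool.Agent.helper56.SG.SpecG

set_option autoImplicit false

open MeasureTheory Set Metric Filter Topology
open scoped ENNReal NNReal ComplexConjugate
open Pool.Agent.SG

noncomputable section

namespace Pool.Agent.SGG

theorem LSU (hACT : ACT_stmt) (hLFI : LFI_stmt) (hMOB : MOB_stmt) : LSU_stmt := by
  intro Γ _ A hd η r hη hr hsupp c
  have key : ∀ ρ : ℝ, ρ < 1 → ∀ z ∈ ball (0 : ℂ) 1, ‖z‖ ≤ ρ → ∀ γ : Γ, η (A.act γ z) ≠ 0 →
      γ ∈ {γ : Γ | ∃ z : ℂ, ‖z‖ ≤ ρ ∧ ‖A.act γ z‖ ≤ r} := by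
    intro ρ hρ z hz hzρ γ hγ
    refine ⟨z, hzρ, ?_⟩
    by_contra h
    rw [not_le] at h
    exact hγ (hsupp _ ((hACT Γ A z hz).1 γ).2.1 h)
  have hsum : ∀ z ∈ ball (0 : ℂ) 1, ∀ S : Finset Γ, (∀ γ, η (A.act γ z) ≠ 0 → γ ∈ S) →
      ∑' γ, c γ * η (A.act γ z) = ∑ γ ∈ S, c γ * η (A.act γ z) := by
    intro z _ S hS
    apply tsum_eq_sum
    intro γ hγ
    by_contra h
    apply hγ
    apply hS
    intro h0
    apply h
    rw [h0, mul_zero]
  refine ⟨?_, ?_, hsum⟩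
  · intro z₀ hz₀
    apply ContinuousAt.continuousWithinAt
    have hz1 : ‖z₀‖ < 1 := mem_ball_zero_iff.mp hz₀
    obtain ⟨ρ, hρ0, hρ1⟩ := exists_between hz1
    have hfin := hLFI Γ A hd ρ r hρ1 hr
    set T := hfin.toFinset with hT
    have hev : (fun z => ∑' γ, c γ * η (A.act γ z)) =ᶠ[𝓝 z₀]
        fun z => ∑ γ ∈ T, c γ * η (A.act γ z) := by
      have h1 : ball (0 : ℂ) ρ ∈ 𝓝 z₀ := isOpen_ball.mem_nhds (mem_ball_zero_iff.mpr hρ0)
      filter_upwards [h1] with z hz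
      have hzρ : ‖z‖ < ρ := mem_ball_zero_iff.mp hz
      have hzb : z ∈ ball (0 : ℂ) 1 := mem_ball_zero_iff.mpr (hzρ.trans hρ1)
      apply hsum z hzb
      intro γ hγ
      rw [hT, Set.Finite.mem_toFinset]
      exact key ρ hρ1 z hzb hzρ.le γ hγ
    refine ContinuousAt.congr ?_ hev.symm
    apply tendsto_finsetSum
    intro γ _
    apply Tendsto.const_mul
    have h2 := (hACT Γ A z₀ hz₀).1 γ
    have h3 : ContinuousAt (A.act γ) z₀ := by
      have := ((hMOB _ _ h2.1).2.2.2.2.2.1 z₀ hz₀).continuousAt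
      exact this
    have h4 : ContinuousAt η (A.act γ z₀) := hη.continuousAt (isOpen_ball.mem_nhds h2.2.1)
    exact ContinuousAt.comp h4 h3
  · intro z hz
    have hz1 : ‖z‖ < 1 := mem_ball_zero_iff.mp hz
    exact (hLFI Γ A hd ‖z‖ r hz1 hr).subset fun γ hγ => key ‖z‖ hz1 z hz le_rfl γ hγ

end Pool.Agent.SGG
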