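import Pool.Agent.helper56.SG.SpecG

set_option autoImplicit false

open MeasureTheory Set Metric Filter Topology
open scoped ENNReal NNReal ComplexConjugate
open Pool.Agent.SG

noncomputable section

namespace Pool.Agent.SGG

/-- the product of the kernel and a function continuous near the support of the kernel -/
theorem MXP_cb (hPPF : PPF_stmt) {t r : ℝ} {x : ℂ} (hx : x ∈ ball (0 : ℂ) 1)
    (ht : ∀ y ∈ ball (0 : ℂ) 1, t ≤ pp x y → y ∈ ball (0 : ℂ) r) {f : ℂ → ℝ}
    (hf : ContinuousOn f (ball (0 : ℂ) r)) : CB (fun y => ker t x y * f y) := by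
  obtain ⟨-, -, -, hc, -⟩ := hPPF
  have hpc : ContinuousOn (fun y : ℂ => pp x y) (ball (0 : ℂ) 1) := by
    have h := hc.comp (f := fun y : ℂ => (x, y)) (s := ball (0 : ℂ) 1) (by fun_prop)
      (fun y hy => ⟨hx, hy⟩)
    exact h
  intro y hy
  apply ContinuousAt.continuousWithinAt
  have hpa : ContinuousAt (fun y : ℂ => pp x y) y := hpc.continuousAt (isOpen_ball.mem_nhds hy)
  by_cases hyr : y ∈ ball (0 : ℂ) r
  · apply ContinuousAt.mul
    · unfold ker
      exact continuousAt_const.max (hpa.sub continuousAt_const)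
    · exact hf.continuousAt (isOpen_ball.mem_nhds hyr)
  · have h1 : pp x y < t := by
      by_contra h
      exact hyr (ht y hy (not_lt.mp h))
    have h2 : ∀ᶠ w in 𝓝 y, pp x w < t := hpa.eventually_lt continuousAt_const h1
    have h3 : (fun y => ker t x y * f y) =ᶠ[𝓝 y] fun _ => 0 := by
      filter_upwards [h2] with w hw
      have : ker t x w = 0 := by
        unfold ker
        exact max_eq_left (by linarith)
      rw [this, zero_mul]
    exact (continuousAt_const (y := (0 : ℝ))).congr h3.symm

theorem MXP (hPPF : PPF_stmt) (hPPN : PPN_stmt) (hHYC : HYC_stmt) (hKNB : KNB_stmt)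
    (hHOL : HOL_stmt) : MXP_stmt := by
  intro W hW hfix r hr0 hr1 F hF hbd z hz
  by_contra hcon
  rw [not_le] at hcon
  -- the function E
  classical
  set E : ℂ → ℝ := fun w => if w ∈ ball (0 : ℂ) r then W w - (F w).re else 0 with hE
  have hEin : ∀ w ∈ ball (0 : ℂ) r, E w = W w - (F w).re := fun w hw => by simp only [hE, if_pos hw]
  have hEout : ∀ w, w ∉ ball (0 : ℂ) r → E w = 0 := fun w hw => by simp only [hE, if_neg hw]
  have hsub : closedBall (0 : ℂ) r ⊆ ball (0 : ℂ) 1 := closedBall_subset_ball hr1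
  have hsub' : ball (0 : ℂ) r ⊆ ball (0 : ℂ) 1 := ball_subset_ball hr1.le
  have hFc : ContinuousOn (fun w => (F w).re) (ball (0 : ℂ) r) :=
    Complex.continuous_re.comp_continuousOn hF.continuousOn
  have hEc : ContinuousOn E (closedBall (0 : ℂ) r) := by
    intro w hw
    by_cases hwr : w ∈ ball (0 : ℂ) r
    · apply ContinuousAt.continuousWithinAt
      have h1 : E =ᶠ[𝓝 w] fun w => W w - (F w).re := by
        filter_upwards [isOpen_ball.mem_nhds hwr] with v hv
        exact hEin v hv
      apply ContinuousAt.congr _ h1.symm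
      exact (hW.continuousAt (isOpen_ball.mem_nhds (hsub hw))).sub
        (hFc.continuousAt (isOpen_ball.mem_nhds hwr))
    · have hws : w ∈ sphere (0 : ℂ) r := by
        rw [mem_sphere]
        rw [mem_closedBall] at hw
        rw [mem_ball] at hwr
        exact le_antisymm hw (not_lt.mp hwr)
      have h0 : E w = 0 := hEout w hwr
      unfold ContinuousWithinAt
      rw [h0]
      rw [← ball_union_sphere, nhdsWithin_union]
      refine Tendsto.sup ?_ ?_
      · have h1 : Tendsto (fun v => W v - (F v).re) (𝓝[ball (0 : ℂ) r] w) (𝓝 (W w - W w)) := by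
          refine Tendsto.sub ?_ (hbd w hws)
          exact ((hW.continuousAt (isOpen_ball.mem_nhds (hsub hw))).tendsto).mono_left
            nhdsWithin_le_nhds
        rw [sub_self] at h1
        refine h1.congr' ?_
        filter_upwards [self_mem_nhdsWithin] with v hv
        exact (hEin v hv).symm
      · refine Tendsto.congr' (f₁ := fun _ => (0 : ℝ)) ?_ tendsto_const_nhds
        filter_upwards [self_mem_nhdsWithin] with v hv
        refine (hEout v ?_).symm
        rw [mem_sphere] at hv
        rw [mem_ball, hv]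
        exact lt_irrefl r
  -- the maximum
  obtain ⟨p, hp, hpm⟩ := (isCompact_closedBall (0 : ℂ) r).exists_isMaxOn
    ⟨z, ball_subset_closedBall hz⟩ hEc
  have hm : 0 < E p := by
    have h1 := hpm (ball_subset_closedBall hz)
    have h2 : E z ≤ E p := h1
    rw [hEin z hz] at h2
    linarith
  set m := E p with hmdef
  have hle : ∀ w ∈ closedBall (0 : ℂ) r, E w ≤ m := fun w hw => hpm hw
  have hZ : IsCompact (closedBall (0 : ℂ) r ∩ E ⁻¹' {m}) := by
    have hcl : IsClosed (closedBall (0 : ℂ) r ∩ E ⁻¹' {m}) :=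
      hEc.preimage_isClosed_of_isClosed isClosed_closedBall isClosed_singleton
    exact (isCompact_closedBall (0 : ℂ) r).of_isClosed_subset hcl inter_subset_left
  obtain ⟨x, hx, hxm⟩ := hZ.exists_isMaxOn ⟨p, hp, rfl⟩ (continuous_norm.continuousOn (s := _))
  have hxE : E x = m := hx.2
  have hxr : x ∈ ball (0 : ℂ) r := by
    by_contra h
    rw [hEout x h] at hxE
    linarith
  have hx1 : x ∈ ball (0 : ℂ) 1 := hsub' hxr
  obtain ⟨t, ht0, ht1, htr, y₀, hy₀, hty₀, hxy₀⟩ := hPPN r hr1 x hxr
  have hy₀1 : y₀ ∈ ball (0 : ℂ) 1 := hsub' hy₀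
  obtain ⟨hN, hK⟩ := hKNB t ht0 ht1
  obtain ⟨hKc, hKi, hKu⟩ := hK x hx1
  -- the function g
  have hcm : ContinuousOn (fun _ : ℂ => m) (ball (0 : ℂ) 1) := continuousOn_const
  have i1 : Integrable (fun y => ker t x y * m) hyp := hKu (fun _ => m) hcm
  have i2 : Integrable (fun y => ker t x y * W y) hyp := hKu W hW
  have c3 : CB (fun y => ker t x y * (F y).re) := MXP_cb hPPF hx1 htr hFc
  have hk0 : ∀ y ∈ ball (0 : ℂ) 1, r < ‖y‖ → ker t x y = 0 := by
    intro y hy hry
    have : ¬ t ≤ pp x y := fun h => by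
      have h1 := htr y hy h
      rw [mem_ball_zero_iff] at h1
      linarith
    unfold ker
    exact max_eq_left (by linarith)
  have i3 : Integrable (fun y => ker t x y * (F y).re) hyp :=
    hHYC.2.2.2.2.2.1 _ c3 r hr1 fun y hy hry => by rw [hk0 y hy hry, zero_mul]
  have e3 : ∫ y, ker t x y * (F y).re ∂hyp = NN t * (F x).re := by
    have h := hHOL t ht0 ht1 x hx1 (ball (0 : ℂ) r) F isOpen_ball hF htr
    unfold KK at h
    rw [← h]
    field_simp
  have e2 : ∫ y, ker t x y * W y ∂hyp = NN t * W x := by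
    have h := hfix t ht0 ht1 x hx1
    unfold KK at h
    conv_rhs => rw [← h]
    field_simp
  have e1 : ∫ y, ker t x y * m ∂hyp = NN t * m := by
    rw [integral_mul_const, hKi]
  have c4 : CB (fun y => ker t x y * (m - W y + (F y).re)) :=
    MXP_cb hPPF hx1 htr ((continuousOn_const.sub (hW.mono hsub')).add hFc)
  have hsplit : (fun y => ker t x y * (m - W y + (F y).re)) =
      fun y => ker t x y * m - ker t x y * W y + ker t x y * (F y).re := by
    ext y
    ring
  have i4 : Integrable (fun y => ker t x y * (m - W y + (F y).re)) hyp := by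
    rw [hsplit]
    exact (i1.sub i2).add i3
  have e4 : ∫ y, ker t x y * (m - W y + (F y).re) ∂hyp = 0 := by
    have i12 : Integrable (fun y => ker t x y * m - ker t x y * W y) hyp := i1.sub i2
    rw [hsplit, integral_add i12 i3, integral_sub i1 i2, e1, e2, e3]
    have : E x = W x - (F x).re := hEin x hxr
    have h5 : m = W x - (F x).re := by rw [← this, hxE]
    rw [h5]
    ring
  have hnn : ∀ y ∈ ball (0 : ℂ) 1, 0 ≤ ker t x y * (m - W y + (F y).re) := by
    intro y hy
    by_cases hp : t ≤ pp x y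
    · have hyr := htr y hy hp
      refine mul_nonneg (le_max_left _ _) ?_
      have := hle y (ball_subset_closedBall hyr)
      rw [hEin y hyr] at this
      linarith
    · have : ker t x y = 0 := by
        unfold ker
        exact max_eq_left (by linarith)
      rw [this, zero_mul]
  have hzero := hHYC.2.2.2.2.2.2 _ c4 hnn i4 e4 y₀ hy₀1
  have hkpos : 0 < ker t x y₀ := by
    unfold ker
    exact lt_max_of_lt_right (by linarith)
  have h6 : m - W y₀ + (F y₀).re = 0 := by
    rcases mul_eq_zero.mp hzero with h | h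
    · exact absurd h hkpos.ne'
    · exact h
  have h7 : E y₀ = m := by
    rw [hEin y₀ hy₀]
    linarith
  have h8 : y₀ ∈ closedBall (0 : ℂ) r ∩ E ⁻¹' {m} := ⟨ball_subset_closedBall hy₀, h7⟩
  have h9 : ‖y₀‖ ≤ ‖x‖ := hxm h8
  linarith

end Pool.Agent.SGG
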