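import Pool.Agent.helper95.SG.MOB
import Pool.Agent.helper77.SG.TAU
import Pool.Agent.helper78.SG.SWP
import Pool.Agent.helper23.SG.PPF
import Pool.Agent.helper55.SG.HYI
import Pool.Agent.helper95.SG.HYC
import Pool.Agent.helper40.SG.CHV
import Pool.Agent.helper95.SG.FUB
import Pool.Agent.helper97.SG.KNB
import Pool.Agent.helper56.SG.KLI
import Pool.Agent.helper46.SG.KCT
import Pool.Agent.helper66.SG.KEQ
import Pool.Agent.helper50.SG.KCM
import Pool.Agent.helper40.SG.ACT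
import Pool.Agent.helper78.SG.LFI
import Pool.Agent.helper56.SG.LSU
import Pool.Agent.helper76.SG.CHI
import Pool.Agent.helper82.SG.WZE
import Pool.Agent.helper39.SG.UNF
import Pool.Agent.helper76.SG.ANA
import Pool.Agent.helper40.SG.ANB
import Pool.Agent.helper85.SG.ANT
import Pool.Agent.helper73.SG.POS
import Pool.Agent.helper85.SG.DOE
import Pool.Agent.helper59.SG.EQI
import Pool.Agent.helper12.SG.UCV
import Pool.Agent.helper82.SG.FX1
import Pool.Agent.helper61.SG.FX2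
import Pool.Agent.helper95.SG.RAD
import Pool.Agent.helper41.SG.HOL
import Pool.Agent.helper26.SG.POI
import Pool.Agent.helper55.SG.PPN
import Pool.Agent.helper56.SG.MXP
import Pool.Agent.helper63.SG.MPR
import Pool.Agent.helper46.SG.HRM
import Pool.Agent.helper8.SG.PER
import Pool.Agent.helper77.SG.GLO
import Pool.Agent.helper40.SG.GRO
import Pool.Agent.helper56.SG.GEX

/-!
# sg: part G assembled: `Pool.Agent.SGG.gEX : GEX_stmt`
-/

set_option autoImplicit false

namespace Pool.Agent.SGG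

theorem gMOB : MOB_stmt := MOB
theorem gPPF : PPF_stmt := PPF
theorem gHYI : HYI_stmt := HYI gMOB
theorem gHYC : HYC_stmt := HYC
theorem gCHV : CHV_stmt := CHV gMOB gHYI gHYC
theorem gKNB : KNB_stmt := KNB gPPF gHYC gCHV TAU gMOB
theorem gKLI : KLI_stmt := KLI gKNB gHYC
theorem gKCT : KCT_stmt := KCT gPPF gHYC gKNB
theorem gKEQ : KEQ_stmt := KEQ gMOB gCHV gKNB
theorem gFUB : FUB_stmt := FUB gHYC
theorem gKCM : KCM_stmt := KCM gMOB SWP gPPF gHYC gCHV gKNB gFUB
theorem gACT : ACT_stmt := ACT gMOB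
theorem gLFI : LFI_stmt := LFI gMOB gACT gPPF
theorem gLSU : LSU_stmt := LSU gACT gLFI gMOB
theorem gCHI : CHI_stmt := CHI gACT gLSU
theorem gWZE : WZE_stmt := WZE gACT gLSU
theorem gUNF : UNF_stmt := UNF gACT gMOB gHYC gCHV
theorem gANA : ANA_stmt := ANA gPPF gHYC gKNB gLFI gUNF
theorem gANB : ANB_stmt := ANB gHYC gFUB
theorem gANT : ANT_stmt := ANT gACT gMOB gPPF gHYC gKNB gANA gANB
theorem gPOS : POS_stmt := POS gHYC gACT
theorem gDOE : DOE_stmt := DOE gACT gMOB gPPF gHYC gKNB gKLI gKEQ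
theorem gEQI : EQI_stmt := EQI gACT gMOB gKEQ gKLI
theorem gFX1 : FX1_stmt := FX1 gACT gKLI gKCT gEQI gWZE gANT gPOS UCV
theorem gFX2 : FX2_stmt := FX2 gKLI gKCT gKCM gEQI gANT gPOS
theorem gRAD : RAD_stmt := RAD gHYC gCHV
theorem gHOL : HOL_stmt := HOL gMOB TAU gPPF gHYC gCHV gKNB gRAD
theorem gMXP : MXP_stmt := MXP gPPF PPN gHYC gKNB gHOL
theorem gMPR : MPR_stmt := MPR gKLI POI gMXP
theorem gPER : PER_stmt := PER gACT gMOB
theorem gGRO : GRO_stmt := GRO gACT gMOB GLO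

/-- existence of the holomorphic primitive -/
theorem gEX : GEX_stmt := GEX gCHI gDOE gFX1 gFX2 gMPR HRM gPER gGRO gACT

end Pool.Agent.SGG
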